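import Pool.Agent.H.MP_754066_an.B

namespace Pool.Agent.Results.MP_754066_an.No
open Filter Topology Complex

section
variable {A0 A1 B0 B1 : Type} [NormedAddCommGroup A0] [NormedSpace ℂ A0] [NormedAddCommGroup A1]
  [NormedSpace ℂ A1] [NormedAddCommGroup B0] [NormedSpace ℂ B0] [NormedAddCommGroup B1]
  [NormedSpace ℂ B1]

/-- The map underlying an inclusion. -/
def fn (i : A1 →L[ℂ] A0) : A1 → A0 := i

/-- Membership in the complex interpolation space of the couple given by the inclusion `i`. -/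
def Mem (i : A1 →L[ℂ] A0) (θ : ℝ) (a : A0) : Prop :=
  ∃ (f : ℂ → A0) (g : ℝ → A1), DiffContOnCl ℂ f (re ⁻¹' Set.Ioo 0 1) ∧
    (∃ C, ∀ z, z.re ∈ Set.Icc (0 : ℝ) 1 → ‖f z‖ ≤ C) ∧ Continuous g ∧
    (∀ t : ℝ, f (1 + t * I) = fn i (g t)) ∧
    Tendsto (fun t : ℝ => f (t * I)) (cocompact ℝ) (𝓝 0) ∧ Tendsto g (cocompact ℝ) (𝓝 0) ∧ f θ = a

/-- A map with properties 1-3 that does not preserve the interpolation spaces. -/
def Fails (i : A1 →L[ℂ] A0) (j : B1 →L[ℂ] B0) (θ : ℝ) : Prop :=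
  ∃ (U : A0 → B0) (M0 M1 : ℝ), (∀ a b, ‖U a - U b‖ ≤ M0 * ‖a - b‖) ∧
    (∀ a, ∃ b, U (fn i a) = fn j b ∧ ‖b‖ ≤ M1 * ‖a‖) ∧ Differentiable ℝ U ∧
    ∃ a, Mem i θ a ∧ ¬ Mem j θ (U a)
end

theorem result : ∃ (A B : Type) (_ : NormedAddCommGroup A) (_ : NormedSpace ℂ A)
    (_ : CompleteSpace A) (_ : NormedAddCommGroup B) (_ : NormedSpace ℂ B) (_ : CompleteSpace B)
    (i : A →L[ℂ] A) (j : B →L[ℂ] B), Function.Injective (fn i) ∧ Function.Injective (fn j) ∧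
      Fails i j (1 / 2) :=
  ⟨H.MP_754066_an.Lp 2, H.MP_754066_an.Lp 1, _, _, inferInstance, _, _, inferInstance,
    H.MP_754066_an.main⟩

end Pool.Agent.Results.MP_754066_an.No
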